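import Pool.Agent.H67.WQ.Classify

set_option autoImplicit false

namespace Pool.Agent.Results.MP_07dfc7_co.Classification

open Pool.Agent.H67.WQ

/-- The pairs `(H₁, H₂)` of finite graphs for which the class of connected graphs containing
neither `H₁` nor `H₂` as a contraction is well-quasi-ordered by the contraction relation.

This is the case if and only if

* `H₁` or `H₂` is `K_1`, `K_2`, `K_3`, `P_3` or the diamond (`SmallGraph`), or
* the two graphs are, in some order (`BestPair`),
  - a star `K_{1,p}` with `p ≥ 3` and a complete graph `K_m` with `m ≥ 1`, or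
  - a star `K_{1,p}` with `p ≥ 3` and `K_m` minus one edge with `m ≥ 3`, or
  - the star `K_{1,3}` and `K_m` minus two disjoint edges with `m ≥ 5`, or
  - a graph `K_{1,1,p}` with `p ≥ 3` and `K_4`. -/
theorem result (H₁ H₂ : FG) : WQO (Cl H₁ H₂) ↔
    SmallGraph H₁ ∨ SmallGraph H₂ ∨ BestPair H₁ H₂ ∨ BestPair H₂ H₁ :=
  classification H₁ H₂

end Pool.Agent.Results.MP_07dfc7_co.Classification
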